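import Pool.Agent.Q52.Spec.Defs
import Pool.Agent.Q52.Spec.Neg
import Pool.Agent.Q52.Spec.Pos2

set_option autoImplicit false

/-!
# MP_f0e28a_gt, Q1: facially exposed spectrahedra with facially exposed polars

The definitions (`IsFace`, `dim`, `signature`, `IsExposed`, `FaciallyExposed`, `polar`,
`IsSpectrahedron`) are in `Pool.Agent.Q52.Spec.Defs`.

Proof of (1).  Let `n = max I`, `k = min I`.  The spectrahedron is the intersection of the cylinders
`|(x_0 + T_i, x_1, ..., x_(n-i-1))| ≤ R_i` for `i ∈ I`, `i < n`, with `T_k = 4`, `R_k = 1` and
`T_i = 6`, `R_i = 2 + s_i` for `i > k`, `1/2 < s_i ≤ 3/5` decreasing.  The cylinders with `i > k` cut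
off only points of the first cylinder which are close to the origin, so that the polar is the polar
of the first cylinder, which does not contain the origin; this polar is strictly convex.

Proof of (2).  By the bipolar theorem every boundary point `x` of a face `F` of dimension `d - 1`
lies in a second face of dimension `d - 1`, which meets `F` in `x` only; but there are at most
countably many faces of dimension `d - 1`.
-/

namespace Pool.Agent.Results.MP_f0e28a_gt.ExposedPolars

open Pool.Agent.Q52.Spec

/-- (1) For every nonempty finite set `I` of nonnegative integers there is a spectrahedron `S` with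
facial dimension signature `I` such that `S` and its polar are facially exposed.

(2) This depends on the position of the origin: if `d ≥ 3`, then no closed convex set `S` which
contains the origin and has the signature `{0, d - 1, d}` is facially exposed together with its
polar (in any Euclidean space). -/
theorem result :
    (∀ I : Finset ℕ, I.Nonempty → ∃ (n : ℕ) (S : Set (EuclideanSpace ℝ (Fin n))),
      IsSpectrahedron S ∧ signature S = (I : Set ℕ) ∧ FaciallyExposed S ∧
        FaciallyExposed (polar S)) ∧
    (∀ (n d : ℕ) (S : Set (EuclideanSpace ℝ (Fin n))), 3 ≤ d → Convex ℝ S → IsClosed S →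
      0 ∈ S → signature S = {0, d - 1, d} → FaciallyExposed S → ¬ FaciallyExposed (polar S)) :=
  ⟨exists_spectrahedron, fun _ _ _ hd hS hc h0 hsig hF hP =>
    Bad.elim ⟨hS, hc, h0, hd, hsig, hF, hP⟩⟩

end Pool.Agent.Results.MP_f0e28a_gt.ExposedPolars
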